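import Mathlib

set_option autoImplicit false
open Filter Topology Finset

namespace Pool.Agent.K4H58.DR

/-- one step of the Derrida-Retaux recursion for `m = 2`, on sequences -/
noncomputable def step (q : ℕ → ℝ) (k : ℕ) : ℝ :=
  (∑ ij ∈ antidiagonal (k + 1), q ij.1 * q ij.2) + (if k = 0 then q 0 ^ 2 else 0)

/-- generating function -/
noncomputable def A (q : ℕ → ℝ) (s : ℝ) : ℝ := ∑' k : ℕ, q k * s ^ k

/-- `s` times the derivative of the generating function -/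
noncomputable def B (q : ℕ → ℝ) (s : ℝ) : ℝ := ∑' k : ℕ, (k : ℝ) * q k * s ^ k

/-- admissible sequences -/
structure Adm (q : ℕ → ℝ) : Prop where
  nonneg : ∀ k, 0 ≤ q k
  summA : Summable fun k : ℕ => q k * (2 : ℝ) ^ k
  summB : Summable fun k : ℕ => (k : ℝ) * q k * (2 : ℝ) ^ k

lemma Adm.sA {q : ℕ → ℝ} (h : Adm q) {s : ℝ} (h0 : 0 ≤ s) (h2 : s ≤ 2) :
    Summable fun k : ℕ => q k * s ^ k :=
  Summable.of_nonneg_of_le (fun k => mul_nonneg (h.nonneg k) (pow_nonneg h0 k))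
    (fun k => mul_le_mul_of_nonneg_left (pow_le_pow_left₀ h0 h2 k) (h.nonneg k)) h.summA

lemma Adm.sB {q : ℕ → ℝ} (h : Adm q) {s : ℝ} (h0 : 0 ≤ s) (h2 : s ≤ 2) :
    Summable fun k : ℕ => (k : ℝ) * q k * s ^ k :=
  Summable.of_nonneg_of_le
    (fun k => mul_nonneg (mul_nonneg (Nat.cast_nonneg k) (h.nonneg k)) (pow_nonneg h0 k))
    (fun k => mul_le_mul_of_nonneg_left (pow_le_pow_left₀ h0 h2 k)
      (mul_nonneg (Nat.cast_nonneg k) (h.nonneg k))) h.summB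

lemma conv_eq (q : ℕ → ℝ) (s : ℝ) (N : ℕ) :
    (∑ ij ∈ antidiagonal N, (q ij.1 * s ^ ij.1) * (q ij.2 * s ^ ij.2)) =
      (∑ ij ∈ antidiagonal N, q ij.1 * q ij.2) * s ^ N := by
  rw [sum_mul]
  refine sum_congr rfl fun ij hij => ?_
  rw [HasAntidiagonal.mem_antidiagonal] at hij
  rw [← hij, pow_add]
  ring

lemma convB_eq (q : ℕ → ℝ) (s : ℝ) (N : ℕ) :
    (∑ ij ∈ antidiagonal N, ((ij.1 : ℝ) * q ij.1 * s ^ ij.1) * (q ij.2 * s ^ ij.2)) +
    (∑ ij ∈ antidiagonal N, (q ij.1 * s ^ ij.1) * ((ij.2 : ℝ) * q ij.2 * s ^ ij.2)) =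
      (N : ℝ) * (∑ ij ∈ antidiagonal N, q ij.1 * q ij.2) * s ^ N := by
  rw [← sum_add_distrib, mul_sum, sum_mul]
  refine sum_congr rfl fun ij hij => ?_
  rw [HasAntidiagonal.mem_antidiagonal] at hij
  rw [← hij, pow_add]
  push_cast
  ring

lemma hasSum_conv {q : ℕ → ℝ} (h : Adm q) {s : ℝ} (h0 : 0 ≤ s) (h2 : s ≤ 2) :
    HasSum (fun N : ℕ => (∑ ij ∈ antidiagonal N, q ij.1 * q ij.2) * s ^ N) (A q s ^ 2) := by
  have hs := (h.sA h0 h2).norm
  have h1 := (summable_norm_sum_mul_antidiagonal_of_summable_norm hs hs).of_norm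
  have h3 := tsum_mul_tsum_eq_tsum_sum_antidiagonal_of_summable_norm hs hs
  have h5 := h1.hasSum
  rw [← h3] at h5
  simp only [conv_eq] at h5
  rw [sq]
  exact h5

lemma hasSum_convB {q : ℕ → ℝ} (h : Adm q) {s : ℝ} (h0 : 0 ≤ s) (h2 : s ≤ 2) :
    HasSum (fun N : ℕ => (N : ℝ) * (∑ ij ∈ antidiagonal N, q ij.1 * q ij.2) * s ^ N)
      (2 * A q s * B q s) := by
  have hs := (h.sA h0 h2).norm
  have hb := (h.sB h0 h2).norm
  have h1 := (summable_norm_sum_mul_antidiagonal_of_summable_norm hb hs).of_norm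
  have h1' := (summable_norm_sum_mul_antidiagonal_of_summable_norm hs hb).of_norm
  have h3 := tsum_mul_tsum_eq_tsum_sum_antidiagonal_of_summable_norm hb hs
  have h3' := tsum_mul_tsum_eq_tsum_sum_antidiagonal_of_summable_norm hs hb
  have h5 := h1.hasSum.add h1'.hasSum
  rw [← h3, ← h3'] at h5
  have h6 : (∑' n : ℕ, (n : ℝ) * q n * s ^ n) * (∑' n : ℕ, q n * s ^ n) +
      (∑' n : ℕ, q n * s ^ n) * (∑' n : ℕ, (n : ℝ) * q n * s ^ n) = 2 * A q s * B q s := by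
    unfold A B
    ring
  rw [h6] at h5
  simp only [convB_eq] at h5
  exact h5

lemma hasSum_step {q : ℕ → ℝ} (h : Adm q) {s : ℝ} (h0 : 0 < s) (h2 : s ≤ 2) :
    HasSum (fun k : ℕ => step q k * s ^ k) ((A q s ^ 2 + (s - 1) * q 0 ^ 2) / s) := by
  have h1 := (hasSum_nat_add_iff' 1).mpr (hasSum_conv h h0.le h2)
  simp only [range_one, sum_singleton, pow_zero, mul_one, HasAntidiagonal.antidiagonal_zero,
    Prod.mk_zero_zero, Prod.fst_zero, Prod.snd_zero] at h1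
  have h3 : HasSum (fun k : ℕ => if k = 0 then q 0 ^ 2 * s else 0) (q 0 ^ 2 * s) :=
    hasSum_ite_eq 0 _
  have h4 := (h1.add h3).mul_left s⁻¹
  have e : s⁻¹ * (A q s ^ 2 - q 0 * q 0 + q 0 ^ 2 * s) = (A q s ^ 2 + (s - 1) * q 0 ^ 2) / s := by
    field_simp
    ring
  rw [e] at h4
  have e2 : (fun k : ℕ => step q k * s ^ k) = fun k : ℕ =>
      s⁻¹ * ((∑ ij ∈ antidiagonal (k + 1), q ij.1 * q ij.2) * s ^ (k + 1) +
        if k = 0 then q 0 ^ 2 * s else 0) := by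
    funext k
    unfold step
    rw [pow_succ]
    rcases eq_or_ne k 0 with rfl | hk
    · simp only [if_true, pow_zero]
      field_simp
      ring
    · simp only [if_neg hk, add_zero]
      field_simp
      ring
  rw [e2]
  exact h4

lemma hasSum_stepB {q : ℕ → ℝ} (h : Adm q) {s : ℝ} (h0 : 0 < s) (h2 : s ≤ 2) :
    HasSum (fun k : ℕ => (k : ℝ) * step q k * s ^ k)
      ((2 * A q s * B q s - A q s ^ 2 + q 0 ^ 2) / s) := by
  have h1 := (hasSum_nat_add_iff' 1).mpr (hasSum_conv h h0.le h2)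
  simp only [range_one, sum_singleton, pow_zero, mul_one, HasAntidiagonal.antidiagonal_zero,
    Prod.mk_zero_zero, Prod.fst_zero, Prod.snd_zero] at h1
  have h3 := (hasSum_nat_add_iff' 1).mpr (hasSum_convB h h0.le h2)
  simp only [range_one, sum_singleton, pow_zero, mul_one, HasAntidiagonal.antidiagonal_zero,
    Prod.mk_zero_zero, Prod.fst_zero, Prod.snd_zero, Nat.cast_zero, zero_mul, sub_zero] at h3
  have h4 := (h3.sub h1).mul_left s⁻¹
  have e : s⁻¹ * (2 * A q s * B q s - (A q s ^ 2 - q 0 * q 0)) =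
      (2 * A q s * B q s - A q s ^ 2 + q 0 ^ 2) / s := by
    field_simp
    ring
  rw [e] at h4
  have e2 : (fun k : ℕ => (k : ℝ) * step q k * s ^ k) = fun k : ℕ =>
      s⁻¹ * (((k + 1 : ℕ) : ℝ) * (∑ ij ∈ antidiagonal (k + 1), q ij.1 * q ij.2) * s ^ (k + 1) -
        (∑ ij ∈ antidiagonal (k + 1), q ij.1 * q ij.2) * s ^ (k + 1)) := by
    funext k
    unfold step
    rw [pow_succ]
    rcases eq_or_ne k 0 with rfl | hk
    · simp
    · simp only [if_neg hk, add_zero]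
      push_cast
      field_simp
      ring
  rw [e2]
  exact h4

lemma A_step {q : ℕ → ℝ} (h : Adm q) {s : ℝ} (h0 : 0 < s) (h2 : s ≤ 2) :
    A (step q) s = (A q s ^ 2 + (s - 1) * q 0 ^ 2) / s := (hasSum_step h h0 h2).tsum_eq

lemma B_step {q : ℕ → ℝ} (h : Adm q) {s : ℝ} (h0 : 0 < s) (h2 : s ≤ 2) :
    B (step q) s = (2 * A q s * B q s - A q s ^ 2 + q 0 ^ 2) / s := (hasSum_stepB h h0 h2).tsum_eq

lemma Adm.step {q : ℕ → ℝ} (h : Adm q) : Adm (step q) where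
  nonneg k := by
    unfold DR.step
    have h1 : 0 ≤ ∑ ij ∈ antidiagonal (k + 1), q ij.1 * q ij.2 :=
      sum_nonneg fun ij _ => mul_nonneg (h.nonneg _) (h.nonneg _)
    split_ifs <;> positivity
  summA := (hasSum_step h two_pos le_rfl).summable
  summB := (hasSum_stepB h two_pos le_rfl).summable

/-- total mass one and `E 2^X = E X 2^X` -/
structure Crit (q : ℕ → ℝ) : Prop extends Adm q where
  mass : A q 1 = 1
  crit : A q 2 = B q 2

lemma Crit.step {q : ℕ → ℝ} (h : Crit q) : Crit (step q) where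
  toAdm := h.toAdm.step
  mass := by
    rw [A_step h.toAdm one_pos one_le_two, h.mass]
    norm_num
  crit := by
    rw [A_step h.toAdm two_pos le_rfl, B_step h.toAdm two_pos le_rfl, ← h.crit]
    ring

lemma A_mono {q : ℕ → ℝ} (h : Adm q) {s t : ℝ} (h0 : 0 ≤ s) (hst : s ≤ t) (h2 : t ≤ 2) :
    A q s ≤ A q t :=
  (h.sA h0 (hst.trans h2)).tsum_le_tsum
    (fun k => mul_le_mul_of_nonneg_left (pow_le_pow_left₀ h0 hst k) (h.nonneg k))
    (h.sA (h0.trans hst) h2)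

lemma B_mono {q : ℕ → ℝ} (h : Adm q) {s t : ℝ} (h0 : 0 ≤ s) (hst : s ≤ t) (h2 : t ≤ 2) :
    B q s ≤ B q t :=
  (h.sB h0 (hst.trans h2)).tsum_le_tsum
    (fun k => mul_le_mul_of_nonneg_left (pow_le_pow_left₀ h0 hst k)
      (mul_nonneg (Nat.cast_nonneg k) (h.nonneg k)))
    (h.sB (h0.trans hst) h2)

/-- `E 2^X ≤ 2` at criticality -/
lemma A_two_le {q : ℕ → ℝ} (h : Crit q) : A q 2 ≤ 2 := by
  -- A = A + (A - B) = ∑ (2 - k) q_k 2^k ≤ 2 q_0 + 2 q_1 ≤ 2
  have hA := (h.sA (s := 2) (by norm_num) le_rfl).hasSum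
  have hB := (h.sB (s := 2) (by norm_num) le_rfl).hasSum
  have h1 := (hA.mul_left 2).sub hB
  have hM := (h.sA (s := 1) (by norm_num) (by norm_num)).hasSum
  have h2 := hM.mul_left 2
  have h3 : 2 * A q 2 - B q 2 ≤ 2 * A q 1 := by
    refine hasSum_le (fun k => ?_) h1 h2
    have hk := h.nonneg k
    rcases k with _ | _ | k
    · simp
    · simp
      linarith
    · have : (0 : ℝ) ≤ (k : ℝ) := Nat.cast_nonneg k
      have hp : (0 : ℝ) < 2 ^ (k + 1 + 1) := by positivity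
      push_cast
      have : 2 * (q (k + 1 + 1) * 2 ^ (k + 1 + 1)) - ((k : ℝ) + 1 + 1) * q (k + 1 + 1) * 2 ^ (k + 1 + 1)
          = - (k * (q (k + 1 + 1) * 2 ^ (k + 1 + 1))) := by ring
      rw [this]
      have h5 : 0 ≤ (k : ℝ) * (q (k + 1 + 1) * 2 ^ (k + 1 + 1)) := by positivity
      have h6 : 0 ≤ 2 * (q (k + 1 + 1) * 1 ^ (k + 1 + 1)) := by
        rw [one_pow]; linarith
      linarith
  rw [h.mass, ← h.crit] at h3
  linarith

/-- `A(2) - A(s) ≤ (2 - s) / 2 * B(2)` -/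
lemma A_sub_le {q : ℕ → ℝ} (h : Adm q) {s : ℝ} (h0 : 0 ≤ s) (h2 : s ≤ 2) :
    A q 2 - A q s ≤ (2 - s) / 2 * B q 2 := by
  have hA := (h.sA (s := 2) (by norm_num) le_rfl).hasSum
  have hA' := (h.sA h0 h2).hasSum
  have hB := (h.sB (s := 2) (by norm_num) le_rfl).hasSum
  refine hasSum_le (fun k => ?_) (hA.sub hA') (hB.mul_left ((2 - s) / 2))
  have h3 : (2 : ℝ) ^ k - s ^ k ≤ (2 - s) / 2 * k * 2 ^ k := by
    have h4 := one_add_mul_le_pow (a := s / 2 - 1) (by linarith) k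
    have h5 : s ^ k = (1 + (s / 2 - 1)) ^ k * 2 ^ k := by
      rw [← mul_pow]
      congr 1
      ring
    rw [h5]
    have h6 : (0 : ℝ) < 2 ^ k := by positivity
    nlinarith
  have h7 := mul_le_mul_of_nonneg_left h3 (h.nonneg k)
  calc q k * 2 ^ k - q k * s ^ k = q k * (2 ^ k - s ^ k) := by ring
    _ ≤ q k * ((2 - s) / 2 * k * 2 ^ k) := h7
    _ = (2 - s) / 2 * ((k : ℝ) * q k * 2 ^ k) := by ring

/-- the function `Δ(s) = G(s) - s (s - 1) G'(s)` -/
noncomputable def D (q : ℕ → ℝ) (s : ℝ) : ℝ := A q s - (s - 1) * B q s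

lemma D_step {q : ℕ → ℝ} (h : Adm q) {s : ℝ} (h0 : 0 < s) (h2 : s ≤ 2) :
    D (step q) s = A q s * (D q s - (2 - s) * (s - 1) / s * B q s) := by
  unfold D
  rw [A_step h h0 h2, B_step h h0 h2]
  field_simp
  ring

lemma B_nonneg {q : ℕ → ℝ} (h : Adm q) {s : ℝ} (h0 : 0 ≤ s) : 0 ≤ B q s :=
  tsum_nonneg fun k => mul_nonneg (mul_nonneg (Nat.cast_nonneg k) (h.nonneg k)) (pow_nonneg h0 k)

lemma D_step_ge {q : ℕ → ℝ} (h : Crit q) {s : ℝ} (h1 : 1 ≤ s) (h2 : s ≤ 2) :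
    A q s * (D q s - (2 - s)) ≤ D (step q) s := by
  have h0 : 0 < s := by linarith
  rw [D_step h.toAdm h0 h2]
  have hA : 0 ≤ A q s := by
    have := A_mono h.toAdm zero_le_one h1 h2
    rw [h.mass] at this
    linarith
  refine mul_le_mul_of_nonneg_left ?_ hA
  have hB : B q s ≤ 2 := (B_mono h.toAdm h0.le h2 le_rfl).trans (h.crit ▸ A_two_le h)
  have hB0 := B_nonneg h.toAdm h0.le
  have h5 : (s - 1) / s * B q s ≤ 1 := by
    rw [div_mul_eq_mul_div, div_le_one h0]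
    nlinarith
  have h6 : (2 - s) * (s - 1) / s * B q s = (2 - s) * ((s - 1) / s * B q s) := by ring
  rw [h6]
  nlinarith

/-! ### growth of the products -/

lemma A_two_ge {q : ℕ → ℝ} (h : Crit q) : 1 ≤ A q 2 := by
  have := A_mono h.toAdm zero_le_one one_le_two le_rfl
  rwa [h.mass] at this

lemma q0_le {q : ℕ → ℝ} (h : Crit q) : q 0 ≤ 1 := by
  have h1 := (h.sA (s := 1) (by norm_num) (by norm_num)).le_tsum 0
    (fun k _ => mul_nonneg (h.nonneg k) (by norm_num))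
  have h2 : A q 1 = ∑' k : ℕ, q k * 1 ^ k := rfl
  rw [← h2, h.mass] at h1
  simpa using h1

/-- `1 - E (1/2)^X ≤ P (X ≥ 1)` -/
lemma eta_ge {q : ℕ → ℝ} (h : Crit q) : 1 - A q (1 / 2) ≤ 1 - q 0 := by
  have h1 := (h.sA (s := 1 / 2) (by norm_num) (by norm_num)).le_tsum 0
    (fun k _ => mul_nonneg (h.nonneg k) (by positivity))
  have h2 : A q (1 / 2) = ∑' k : ℕ, q k * (1 / 2 : ℝ) ^ k := rfl
  rw [← h2] at h1
  simp only [pow_zero, mul_one] at h1
  linarith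

lemma one_le_prod₀' {f : ℕ → ℝ} (hf : ∀ i, 1 ≤ f i) (n : ℕ) : 1 ≤ ∏ i ∈ range n, f i := by
  induction n with
  | zero => simp
  | succ n ih =>
    rw [prod_range_succ]
    nlinarith [hf n]

section seq

variable {Q : ℕ → ℕ → ℝ} (hQ : ∀ n, Q (n + 1) = step (Q n)) (h0 : Crit (Q 0))

include hQ h0

lemma crit_all (n : ℕ) : Crit (Q n) := by
  induction n with
  | zero => exact h0
  | succ n ih => rw [hQ]; exact ih.step

lemma eps_rec (n : ℕ) : A (Q (n + 1)) 2 - 1 = (A (Q n) 2 - 1) + (A (Q n) 2 - 1) ^ 2 / 2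
    - (1 - Q n 0) + (1 - Q n 0) ^ 2 / 2 := by
  rw [hQ, A_step (crit_all hQ h0 n).toAdm two_pos le_rfl]
  ring

/-- one step of the comparison -/
lemma eps_step {n : ℕ} (hn : 3 ≤ n) (he : 2 / (n : ℝ) ^ 2 ≤ 1 - Q n 0)
    (hx : n * (A (Q n) 2 - 1) < 1) :
    ((n : ℝ) + 1) * (A (Q (n + 1)) 2 - 1) ≤ n * (A (Q n) 2 - 1) - 1 / (4 * (n + 1)) := by
  have hc := crit_all hQ h0 n
  rw [eps_rec hQ h0]
  set e := A (Q n) 2 - 1 with hedef
  set η := 1 - Q n 0 with hη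
  have he0 : 0 ≤ e := by
    have := A_two_ge hc
    linarith
  have hη1 : η ≤ 1 := by
    have := hc.nonneg 0
    linarith
  have hn0 : (0 : ℝ) < n := by
    have : 0 < n := by omega
    exact_mod_cast this
  have hn3 : (3 : ℝ) ≤ n := by exact_mod_cast hn
  -- `-η + η²/2` is decreasing on `[0,1]`
  have h1 : -η + η ^ 2 / 2 ≤ -(2 / (n : ℝ) ^ 2) + (2 / (n : ℝ) ^ 2) ^ 2 / 2 := by
    nlinarith
  set x := (n : ℝ) * e with hxdef
  have hx0 : 0 ≤ x := by positivity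
  have hex : e = x / n := by rw [hxdef]; field_simp
  have h2 : e + e ^ 2 / 2 - η + η ^ 2 / 2 ≤
      x / n + (x / n) ^ 2 / 2 - (2 / (n : ℝ) ^ 2) + (2 / (n : ℝ) ^ 2) ^ 2 / 2 := by
    rw [hex]
    linarith
  have h3 : ((n : ℝ) + 1) * (e + e ^ 2 / 2 - η + η ^ 2 / 2) ≤ ((n : ℝ) + 1) *
      (x / n + (x / n) ^ 2 / 2 - (2 / (n : ℝ) ^ 2) + (2 / (n : ℝ) ^ 2) ^ 2 / 2) :=
    mul_le_mul_of_nonneg_left h2 (by positivity)
  refine h3.trans ?_
  have h4 : ((n : ℝ) + 1) *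
      (x / n + (x / n) ^ 2 / 2 - (2 / (n : ℝ) ^ 2) + (2 / (n : ℝ) ^ 2) ^ 2 / 2) =
      x + x / n + ((n : ℝ) + 1) / n ^ 2 * (x ^ 2 / 2 - 2 + 2 / (n : ℝ) ^ 2) := by
    field_simp
    ring
  rw [h4]
  have h5 : 2 / (n : ℝ) ^ 2 ≤ 2 / 9 := by
    apply div_le_div_of_nonneg_left (by norm_num) (by norm_num)
    nlinarith
  have h6 : x ^ 2 / 2 - 2 + 2 / (n : ℝ) ^ 2 ≤ - (5 / 4) := by nlinarith
  have h7 : ((n : ℝ) + 1) / n ^ 2 * (x ^ 2 / 2 - 2 + 2 / (n : ℝ) ^ 2) ≤ 1 / n * (-(5 / 4)) := by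
    have h8 : 1 / (n : ℝ) ≤ ((n : ℝ) + 1) / n ^ 2 := by
      rw [div_le_div_iff₀ hn0 (by positivity)]
      nlinarith
    have h9 : 0 ≤ 1 / (n : ℝ) := by positivity
    nlinarith
  have h10 : x / n ≤ 1 / n := by
    apply div_le_div_of_nonneg_right hx.le hn0.le
  have h11 : 1 / (4 * ((n : ℝ) + 1)) ≤ 1 / n * (1 / 4) := by
    rw [one_div_mul_one_div, mul_comm (n : ℝ) 4]
    apply one_div_le_one_div_of_le (by positivity)
    linarith
  nlinarith

/-- if `P (X_n ≥ 1) ≥ 2 / n²` for all large `n` then `E 2^{X_n} - 1 ≥ 1 / n` for all large `n` -/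
lemma eps_ge {n0 : ℕ} (hn0 : 3 ≤ n0) (he : ∀ n ≥ n0, 2 / (n : ℝ) ^ 2 ≤ 1 - Q n 0) :
    ∀ n ≥ n0, 1 ≤ n * (A (Q n) 2 - 1) := by
  intro n hn
  by_contra hcon
  push Not at hcon
  -- the sequence `x k = (n + k) * eps (n + k)` decreases
  have key : ∀ k : ℕ, ((n + k : ℕ) : ℝ) * (A (Q (n + k)) 2 - 1) ≤
      1 - 1 / 4 * ∑ i ∈ range k, 1 / (((n + i : ℕ) : ℝ) + 1) ∧
      ((n + k : ℕ) : ℝ) * (A (Q (n + k)) 2 - 1) < 1 := by
    intro k
    induction k with
    | zero => simpa using ⟨hcon.le, hcon⟩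
    | succ k ih =>
      have h1 := eps_step hQ h0 (n := n + k) (by omega) (he _ (by omega)) ih.2
      rw [sum_range_succ]
      have h2 : ((n + (k + 1) : ℕ) : ℝ) = ((n + k : ℕ) : ℝ) + 1 := by push_cast; ring
      have h3 : Q (n + (k + 1)) = Q (n + k + 1) := rfl
      rw [h2, h3]
      have h4 : 0 < 1 / (4 * (((n + k : ℕ) : ℝ) + 1)) := by positivity
      have h5 : 1 / (4 * (((n + k : ℕ) : ℝ) + 1)) = 1 / 4 * (1 / (((n + k : ℕ) : ℝ) + 1)) := by
        rw [one_div_mul_one_div]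
      constructor
      · rw [mul_add, ← h5]
        linarith [ih.1]
      · linarith [ih.2]
  have hdiv : Tendsto (fun k : ℕ => ∑ i ∈ range k, 1 / (((n + i : ℕ) : ℝ) + 1)) atTop atTop := by
    have h1 := Real.tendsto_sum_range_one_div_nat_succ_atTop
    have h2 := (tendsto_atTop_add_const_right atTop
      (-(∑ i ∈ range n, (1 : ℝ) / ((i : ℝ) + 1))) (h1.comp (tendsto_add_atTop_nat n)))
    refine h2.congr fun k => ?_
    simp only [Function.comp]
    rw [add_comm k n, sum_range_add]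
    push_cast
    ring
  obtain ⟨k, hk⟩ := (hdiv.eventually_gt_atTop 4).exists
  have h1 := (key k).1
  have h2 : 0 ≤ ((n + k : ℕ) : ℝ) * (A (Q (n + k)) 2 - 1) := by
    have := A_two_ge (crit_all hQ h0 (n + k))
    exact mul_nonneg (Nat.cast_nonneg _) (by linarith)
  linarith

/-- linear growth of the products -/
lemma prod_ge {n0 : ℕ} (hn0 : 3 ≤ n0) (he : ∀ n ≥ n0, 2 / (n : ℝ) ^ 2 ≤ 1 - Q n 0) :
    ∃ c : ℝ, 0 < c ∧ c ≤ 1 ∧ ∀ n : ℕ, c * (n + 1) ≤ ∏ i ∈ range n, A (Q i) 2 := by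
  have hone : ∀ n : ℕ, 1 ≤ ∏ i ∈ range n, A (Q i) 2 := by
    intro n
    exact one_le_prod₀' (fun i => A_two_ge (crit_all hQ h0 i)) n
  refine ⟨1 / (n0 + 1), by positivity, ?_, ?_⟩
  · rw [div_le_one (by positivity)]
    have : (0 : ℝ) ≤ n0 := Nat.cast_nonneg _
    linarith
  · intro n
    rcases le_total n n0 with h | h
    · refine le_trans ?_ (hone n)
      rw [div_mul_eq_mul_div, one_mul, div_le_one (by positivity)]
      have : (n : ℝ) ≤ n0 := by exact_mod_cast h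
      linarith
    · induction n, h using Nat.le_induction with
      | base =>
        refine le_trans (le_of_eq ?_) (hone n0)
        field_simp
      | succ n hn ih =>
        rw [prod_range_succ]
        have h1 := eps_ge hQ h0 hn0 he n hn
        have hnpos : (0 : ℝ) < n := by
          have : 0 < n := by omega
          exact_mod_cast this
        have h2 : 1 + 1 / (n + 1 : ℝ) ≤ A (Q n) 2 := by
          have h3 : 1 / (n + 1 : ℝ) ≤ 1 / n := one_div_le_one_div_of_le hnpos (by linarith)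
          have h4 : 1 / (n : ℝ) ≤ A (Q n) 2 - 1 := by
            rw [div_le_iff₀ hnpos]
            linarith
          linarith
        have h5 : 0 ≤ 1 / ((n0 : ℝ) + 1) * (n + 1) := by positivity
        calc 1 / ((n0 : ℝ) + 1) * (((n + 1 : ℕ) : ℝ) + 1)
            = 1 / ((n0 : ℝ) + 1) * (n + 1) * (1 + 1 / (n + 1 : ℝ)) := by
              push_cast
              field_simp
          _ ≤ (∏ i ∈ range n, A (Q i) 2) * A (Q n) 2 :=
            mul_le_mul ih h2 (by positivity) (by linarith [hone n])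

/-- the lower bound for `Δ_k(s)` -/
lemma D_ge {s : ℝ} (h1 : 1 ≤ s) (h2 : s ≤ 2) (k : ℕ) :
    (∏ i ∈ range k, A (Q i) s) * (D (Q 0) s - (2 - s) * ∑ i ∈ range k, 1 / ∏ j ∈ range i, A (Q j) s)
      ≤ D (Q k) s := by
  have hA : ∀ i, 1 ≤ A (Q i) s := fun i => by
    have hc := crit_all hQ h0 i
    have := A_mono hc.toAdm zero_le_one h1 h2
    rwa [hc.mass] at this
  induction k with
  | zero => simp
  | succ k ih =>
    have h3 := D_step_ge (crit_all hQ h0 k) h1 h2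
    rw [← hQ] at h3
    refine le_trans ?_ h3
    rw [prod_range_succ, sum_range_succ]
    have hP : (0 : ℝ) < ∏ j ∈ range k, A (Q j) s := by
      have : (1 : ℝ) ≤ ∏ j ∈ range k, A (Q j) s := one_le_prod₀' hA k
      linarith
    have h4 : (∏ x ∈ range k, A (Q x) s) * A (Q k) s *
        (D (Q 0) s - (2 - s) * (∑ x ∈ range k, 1 / ∏ j ∈ range x, A (Q j) s +
          1 / ∏ j ∈ range k, A (Q j) s)) =
        A (Q k) s * ((∏ x ∈ range k, A (Q x) s) *
          (D (Q 0) s - (2 - s) * ∑ x ∈ range k, 1 / ∏ j ∈ range x, A (Q j) s) - (2 - s)) := by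
      field_simp
      ring
    rw [h4]
    refine mul_le_mul_of_nonneg_left ?_ (by linarith [hA k])
    linarith

lemma prodS_ge {n : ℕ} (hn : 1 ≤ n) {c : ℝ} (hc : 0 < c)
    (hprod : ∀ n : ℕ, c * (n + 1) ≤ ∏ i ∈ range n, A (Q i) 2) {k : ℕ} (hk : k ≤ n) :
    c / 2 * (k + 1) ≤ ∏ i ∈ range k, A (Q i) (2 - 1 / n) := by
  have hn0 : (0 : ℝ) < n := by exact_mod_cast hn
  have hn1 : (1 : ℝ) ≤ n := by exact_mod_cast hn
  have hinv : 1 / (n : ℝ) ≤ 1 := by rw [div_le_one hn0]; exact hn1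
  have hinv0 : 0 < 1 / (n : ℝ) := by positivity
  have h1 : ∀ i, A (Q i) 2 * (1 - 1 / (2 * n)) ≤ A (Q i) (2 - 1 / n) := by
    intro i
    have hcr := crit_all hQ h0 i
    have h2 := A_sub_le hcr.toAdm (s := 2 - 1 / n) (by linarith) (by linarith)
    rw [← hcr.crit] at h2
    have h3 : (2 - (2 - 1 / (n : ℝ))) / 2 = 1 / (2 * n) := by
      field_simp
      ring
    rw [h3] at h2
    linarith
  have h4 : ∏ i ∈ range k, (A (Q i) 2 * (1 - 1 / (2 * n))) ≤
      ∏ i ∈ range k, A (Q i) (2 - 1 / n) := by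
    refine prod_le_prod (fun i _ => ?_) (fun i _ => h1 i)
    have := A_two_ge (crit_all hQ h0 i)
    have h5 : 1 / (2 * (n : ℝ)) ≤ 1 := by
      rw [div_le_one (by positivity)]
      linarith
    exact mul_nonneg (by linarith) (by linarith)
  rw [prod_mul_distrib, prod_const, card_range] at h4
  refine le_trans ?_ h4
  have h6 : (1 : ℝ) / 2 ≤ (1 - 1 / (2 * n)) ^ k := by
    have h7 := one_add_mul_le_pow (a := - (1 / (2 * (n : ℝ)))) (by
      have : 1 / (2 * (n : ℝ)) ≤ 1 := by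
        rw [div_le_one (by positivity)]
        linarith
      linarith) k
    have h8 : (k : ℝ) * (1 / (2 * n)) ≤ 1 / 2 := by
      have : (k : ℝ) ≤ n := by exact_mod_cast hk
      rw [mul_one_div, div_le_div_iff₀ (by positivity) (by norm_num)]
      linarith
    have h9 : (1 - 1 / (2 * (n : ℝ))) = 1 + -(1 / (2 * (n : ℝ))) := by ring
    rw [h9]
    linarith
  have h10 := hprod k
  have h11 : 0 ≤ c * (k + 1) := by positivity
  calc c / 2 * (k + 1) = c * (k + 1) * (1 / 2) := by ring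
    _ ≤ (∏ i ∈ range k, A (Q i) 2) * (1 - 1 / (2 * n)) ^ k :=
      mul_le_mul h10 h6 (by norm_num) (by linarith)

omit hQ h0 in
lemma harm_le (n : ℕ) : ∑ i ∈ range n, 1 / ((i : ℝ) + 1) ≤ 2 * Real.sqrt n := by
  induction n with
  | zero => simp
  | succ n ih =>
    rw [sum_range_succ]
    have h1 : 1 / ((n : ℝ) + 1) ≤ 2 * Real.sqrt ((n + 1 : ℕ) : ℝ) - 2 * Real.sqrt n := by
      push_cast
      set a := Real.sqrt ((n : ℝ) + 1) with ha
      set b := Real.sqrt (n : ℝ) with hb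
      have ha2 : a ^ 2 = n + 1 := Real.sq_sqrt (by positivity)
      have hb2 : b ^ 2 = n := Real.sq_sqrt (by positivity)
      have hb0 : 0 ≤ b := Real.sqrt_nonneg _
      have ha1 : 1 ≤ a := by
        rw [ha]
        apply Real.one_le_sqrt.mpr
        have : (0 : ℝ) ≤ n := Nat.cast_nonneg _
        linarith
      have hba : b ≤ a := Real.sqrt_le_sqrt (by linarith)
      rw [div_le_iff₀ (by positivity), ← ha2]
      nlinarith
    linarith

/-- the final estimate: `D (Q 0) (2 - 1/n) ≤ C / √n` for all `n ≥ 1` -/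
lemma D0_le {n0 : ℕ} (hn0 : 3 ≤ n0) (he : ∀ n ≥ n0, 2 / (n : ℝ) ^ 2 ≤ 1 - Q n 0) :
    ∃ C : ℝ, ∀ n : ℕ, 1 ≤ n → D (Q 0) (2 - 1 / n) ≤ C / Real.sqrt n := by
  obtain ⟨c, hc, hc1, hprod⟩ := prod_ge hQ h0 hn0 he
  refine ⟨4 / c + 4 / c, fun n hn => ?_⟩
  have hnr : (0 : ℝ) < n := by exact_mod_cast hn
  have hn1 : (1 : ℝ) ≤ n := by exact_mod_cast hn
  have hinv : 1 / (n : ℝ) ≤ 1 := by rw [div_le_one hnr]; exact hn1
  have hinv0 : 0 < 1 / (n : ℝ) := by positivity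
  have hs1 : (1 : ℝ) ≤ 2 - 1 / n := by linarith
  have hs2 : 2 - 1 / (n : ℝ) ≤ 2 := by linarith
  have h1 := D_ge hQ h0 hs1 hs2 n
  have hcr := crit_all hQ h0 n
  have h2 : D (Q n) (2 - 1 / n) ≤ 2 := by
    unfold D
    have h3 := B_nonneg hcr.toAdm (s := 2 - 1 / n) (by linarith)
    have h4 := (A_mono hcr.toAdm (by linarith) hs2 le_rfl).trans (A_two_le hcr)
    nlinarith
  have h3 := prodS_ge hQ h0 hn hc hprod (le_refl n)
  have h4 : ∑ i ∈ range n, 1 / ∏ j ∈ range i, A (Q j) (2 - 1 / n) ≤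
      2 / c * (2 * Real.sqrt n) := by
    refine le_trans ?_ (mul_le_mul_of_nonneg_left (harm_le n) (by positivity))
    rw [mul_sum]
    refine sum_le_sum fun i hi => ?_
    have h5 := prodS_ge hQ h0 hn hc hprod (mem_range.mp hi).le
    refine (one_div_le_one_div_of_le (by positivity) h5).trans (le_of_eq ?_)
    field_simp
  set P := ∏ i ∈ range n, A (Q i) (2 - 1 / n) with hP
  have hP0 : 0 < P := lt_of_lt_of_le (by positivity) h3
  have h6 : D (Q 0) (2 - 1 / n) ≤ 2 / P + (2 - (2 - 1 / (n : ℝ))) *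
      ∑ i ∈ range n, 1 / ∏ j ∈ range i, A (Q j) (2 - 1 / n) := by
    have h7 := h1.trans h2
    rw [← sub_le_iff_le_add, le_div_iff₀ hP0]
    linarith
  have hsq : Real.sqrt n ^ 2 = n := Real.sq_sqrt hnr.le
  have hsq0 : 0 < Real.sqrt n := Real.sqrt_pos.mpr hnr
  have hsq1 : 1 ≤ Real.sqrt n := Real.one_le_sqrt.mpr hn1
  have h8 : 2 / P ≤ 4 / c / Real.sqrt n := by
    have h9 : 2 / P ≤ 2 / (c / 2 * (n + 1)) := by
      apply div_le_div_of_nonneg_left (by norm_num) (by positivity) h3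
    refine h9.trans ?_
    have h10 : 2 / (c / 2 * ((n : ℝ) + 1)) = 4 / c / (n + 1) := by
      field_simp
      norm_num
    rw [h10]
    apply div_le_div_of_nonneg_left (by positivity) hsq0
    nlinarith
  have h11 : (2 - (2 - 1 / (n : ℝ))) *
      ∑ i ∈ range n, 1 / ∏ j ∈ range i, A (Q j) (2 - 1 / n) ≤ 4 / c / Real.sqrt n := by
    have h12 : (2 - (2 - 1 / (n : ℝ))) = 1 / n := by ring
    rw [h12]
    refine (mul_le_mul_of_nonneg_left h4 hinv0.le).trans (le_of_eq ?_)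
    have : (n : ℝ) = Real.sqrt n * Real.sqrt n := by rw [← sq, hsq]
    field_simp
    rw [hsq]
    ring
  calc D (Q 0) (2 - 1 / n) ≤ 4 / c / Real.sqrt n + 4 / c / Real.sqrt n := by linarith
    _ = (4 / c + 4 / c) / Real.sqrt n := by ring

end seq

end Pool.Agent.K4H58.DR
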