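import Mathlib
import Pool.Agent.K4H58.DR

set_option autoImplicit false
open Filter Topology Finset

namespace Pool.Agent.K4H58.DR

/-- the positions of the atoms -/
def g (j : ℕ) : ℕ := 16 ^ (j + 1)

lemma g_inj : Function.Injective g := fun a b h => by
  have := Nat.pow_right_injective (le_refl 2 |>.trans (by norm_num : 2 ≤ 16)) h
  omega

/-- unnormalised masses of the atoms -/
noncomputable def R (j : ℕ) : ℝ := (1 / 32) ^ (j + 1) * (1 / 2) ^ g j

lemma R_pos (j : ℕ) : 0 < R j := by unfold R; positivity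

lemma R_mul (j : ℕ) : R j * 2 ^ g j = (1 / 32) ^ (j + 1) := by
  unfold R
  rw [mul_assoc, ← mul_pow]
  norm_num

lemma g_mul (j : ℕ) : (g j : ℝ) * (1 / 32) ^ (j + 1) = (1 / 2) ^ (j + 1) := by
  unfold g
  push_cast
  rw [← mul_pow]
  norm_num

lemma hasSum_geo (r : ℝ) (h0 : 0 ≤ r) (h1 : r < 1) : HasSum (fun j : ℕ => r ^ (j + 1)) (r / (1 - r)) := by
  have := (hasSum_geometric_of_lt_one h0 h1).mul_left r
  simp only [pow_succ']
  exact this

lemma sumR : Summable R := by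
  refine Summable.of_nonneg_of_le (fun j => (R_pos j).le) (fun j => ?_)
    (hasSum_geo (1 / 32) (by norm_num) (by norm_num)).summable
  unfold R
  have h1 : ((1 : ℝ) / 2) ^ g j ≤ 1 := pow_le_one₀ (by norm_num) (by norm_num)
  have h2 : (0 : ℝ) < (1 / 32) ^ (j + 1) := by positivity
  nlinarith

/-- normalising constant -/
noncomputable def Z : ℝ := 30 / 31 + ∑' j, R j

lemma Z_pos : 0 < Z := by
  unfold Z
  have h : 0 ≤ ∑' j, R j := tsum_nonneg (fun j => (R_pos j).le)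
  linarith

/-- the initial law -/
noncomputable def p0 (k : ℕ) : ℝ := Z⁻¹ * ((if k = 0 then 30 / 31 else 0) + Function.extend g R 0 k)

lemma ext_nonneg (k : ℕ) : 0 ≤ Function.extend g R 0 k := by
  by_cases h : ∃ j, g j = k
  · obtain ⟨j, rfl⟩ := h
    rw [g_inj.extend_apply]
    exact (R_pos j).le
  · rw [Function.extend_apply' _ _ _ h]
    rfl

lemma p0_nonneg (k : ℕ) : 0 ≤ p0 k := by
  unfold p0
  have h1 := ext_nonneg k
  have h2 := Z_pos
  split_ifs <;> positivity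

lemma p0_zero : p0 0 = Z⁻¹ * (30 / 31) := by
  unfold p0
  rw [Function.extend_apply']
  · simp
  · rintro ⟨j, hj⟩
    unfold g at hj
    have : 0 < 16 ^ (j + 1) := by positivity
    omega

lemma p0_g (j : ℕ) : p0 (g j) = Z⁻¹ * R j := by
  unfold p0
  have h : g j ≠ 0 := by
    unfold g
    positivity
  rw [if_neg h, g_inj.extend_apply, zero_add]

lemma hasSum_p0 {F : ℕ → ℝ} {T : ℝ} (h : HasSum (fun j => R j * F (g j)) T) :
    HasSum (fun k => p0 k * F k) (Z⁻¹ * (30 / 31 * F 0 + T)) := by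
  have h1 : HasSum (fun k : ℕ => if k = 0 then 30 / 31 * F 0 else 0) (30 / 31 * F 0) :=
    hasSum_ite_eq 0 _
  have h2 := (hasSum_extend_zero g_inj).mpr h
  have h3 := (h1.add h2).mul_left Z⁻¹
  have e : (fun k => p0 k * F k) = fun k : ℕ => Z⁻¹ * ((if k = 0 then 30 / 31 * F 0 else 0) +
      Function.extend g (fun j => R j * F (g j)) 0 k) := by
    funext k
    unfold p0
    have h4 : Function.extend g (fun j => R j * F (g j)) 0 k = Function.extend g R 0 k * F k := by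
      by_cases h : ∃ j, g j = k
      · obtain ⟨j, rfl⟩ := h
        rw [g_inj.extend_apply, g_inj.extend_apply]
      · rw [Function.extend_apply' _ _ _ h, Function.extend_apply' _ _ _ h]
        simp
    rw [h4]
    rcases eq_or_ne k 0 with rfl | hk
    · simp only [if_true]
      ring
    · simp only [if_neg hk]
      ring
  rw [e]
  exact h3

lemma hasSum_A2 : HasSum (fun k : ℕ => p0 k * (2 : ℝ) ^ k) Z⁻¹ := by
  have h := hasSum_geo (1 / 32) (by norm_num) (by norm_num)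
  have h1 := hasSum_p0 (F := fun k => (2 : ℝ) ^ k) (T := (1 / 32) / (1 - 1 / 32)) (by
    simpa only [R_mul] using h)
  convert h1 using 1
  norm_num

lemma hasSum_B2 : HasSum (fun k : ℕ => (k : ℝ) * p0 k * (2 : ℝ) ^ k) Z⁻¹ := by
  have h := hasSum_geo (1 / 2) (by norm_num) (by norm_num)
  have h1 := hasSum_p0 (F := fun k => (k : ℝ) * (2 : ℝ) ^ k) (T := (1 / 2) / (1 - 1 / 2)) (by
    have e : (fun j => R j * ((g j : ℝ) * 2 ^ g j)) = fun j : ℕ => ((1 : ℝ) / 2) ^ (j + 1) := by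
      funext j
      rw [← g_mul, ← R_mul]
      ring
    simpa only [e] using h)
  convert h1 using 1
  · funext k
    ring
  · norm_num

lemma hasSum_A1 : HasSum p0 1 := by
  have h1 := hasSum_p0 (F := fun _ => (1 : ℝ)) (T := ∑' j, R j) (by
    simpa only [mul_one] using sumR.hasSum)
  simp only [mul_one] at h1
  convert h1 using 1
  have : 30 / 31 + ∑' j, R j = Z := rfl
  rw [this, inv_mul_cancel₀ Z_pos.ne']

lemma crit_p0 : Crit p0 where
  nonneg := p0_nonneg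
  summA := hasSum_A2.summable
  summB := hasSum_B2.summable
  mass := by
    unfold A
    simp only [one_pow, mul_one]
    exact hasSum_A1.tsum_eq
  crit := by
    unfold A B
    rw [hasSum_A2.tsum_eq, hasSum_B2.tsum_eq]

/-- lower bound for `D p0` -/
lemma D_p0_ge (j : ℕ) : Z⁻¹ * (1 / 2) ^ (j + 1) / 6 ≤ D p0 (2 - 1 / (g j : ℕ)) := by
  set K := g j with hK
  have hK16 : 16 ≤ K := by
    rw [hK]
    unfold g
    calc 16 = 16 ^ 1 := by norm_num
      _ ≤ 16 ^ (j + 1) := Nat.pow_le_pow_right (by norm_num) (by omega)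
  have hKr : (16 : ℝ) ≤ K := by exact_mod_cast hK16
  have hK0 : (0 : ℝ) < K := by linarith
  have hinv : 1 / (K : ℝ) ≤ 1 := by rw [div_le_one hK0]; linarith
  have hinv0 : 0 < 1 / (K : ℝ) := by positivity
  set s := 2 - 1 / (K : ℝ) with hs
  have hs1 : 1 ≤ s := by linarith
  have hs2 : s ≤ 2 := by linarith
  have h0 : 0 ≤ s := by linarith
  have hc := crit_p0
  -- `D p0 s = ∑ p0 k (s^k (1 - (s-1) k) + 2^k (k - 1))`
  have h1 : HasSum (fun k : ℕ => p0 k * (s ^ k * (1 - (s - 1) * k) + 2 ^ k * (k - 1)))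
      (D p0 s) := by
    have e1 := (hc.toAdm.sA h0 hs2).hasSum.sub ((hc.toAdm.sB h0 hs2).hasSum.mul_left (s - 1))
    have e2 := (hc.toAdm.sB (s := 2) (by norm_num) le_rfl).hasSum.sub
      (hc.toAdm.sA (s := 2) (by norm_num) le_rfl).hasSum
    have e3 := e1.add e2
    have e4 : (∑' k : ℕ, p0 k * s ^ k) - (s - 1) * (∑' k : ℕ, (k : ℝ) * p0 k * s ^ k) +
        ((∑' k : ℕ, (k : ℝ) * p0 k * 2 ^ k) - ∑' k : ℕ, p0 k * (2 : ℝ) ^ k) = D p0 s := by
      have e5 : (∑' k : ℕ, (k : ℝ) * p0 k * 2 ^ k) = ∑' k : ℕ, p0 k * (2 : ℝ) ^ k := hc.crit.symm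
      rw [e5, sub_self, add_zero]
      rfl
    rw [e4] at e3
    have e6 : (fun k : ℕ => p0 k * (s ^ k * (1 - (s - 1) * k) + 2 ^ k * ((k : ℝ) - 1))) =
        fun b : ℕ => p0 b * s ^ b - (s - 1) * ((b : ℝ) * p0 b * s ^ b) +
          ((b : ℝ) * p0 b * 2 ^ b - p0 b * 2 ^ b) := by
      funext k
      ring
    rw [e6]
    exact e3
  have hterm : ∀ k : ℕ, 0 ≤ s ^ k * (1 - (s - 1) * k) + 2 ^ k * ((k : ℝ) - 1) := by
    intro k
    rcases Nat.eq_zero_or_pos k with rfl | hk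
    · norm_num
    · have hk1 : (1 : ℝ) ≤ k := by exact_mod_cast hk
      have h3 : s ^ k ≤ 2 ^ k := pow_le_pow_left₀ h0 hs2 k
      have h4 : 0 ≤ s ^ k := pow_nonneg h0 k
      have h5 : 1 - (k : ℝ) ≤ 1 - (s - 1) * k := by nlinarith
      nlinarith [mul_le_mul_of_nonneg_left h5 h4]
  have h2 : p0 K * (s ^ K * (1 - (s - 1) * K) + 2 ^ K * (K - 1)) ≤ D p0 s :=
    le_hasSum h1 K (fun k _ => mul_nonneg (p0_nonneg k) (hterm k))
  refine le_trans ?_ h2
  -- the main term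
  have h3 : s ^ K ≤ 2 / 3 * 2 ^ K := by
    have e1 : s = 2 * (1 - 1 / (2 * K)) := by
      rw [hs]
      field_simp
    have e2 : (1 - 1 / (2 * (K : ℝ))) ^ K ≤ 2 / 3 := by
      have h5 := one_add_mul_le_pow (a := 1 / (2 * (K : ℝ))) (by
        have : 0 < 1 / (2 * (K : ℝ)) := by positivity
        linarith) K
      have h6 : (K : ℝ) * (1 / (2 * K)) = 1 / 2 := by
        field_simp
      rw [h6] at h5
      have h7 : (1 - 1 / (2 * (K : ℝ))) ^ K * (1 + 1 / (2 * (K : ℝ))) ^ K ≤ 1 := by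
        rw [← mul_pow]
        have h8 : 1 / (2 * (K : ℝ)) ≤ 1 := by
          rw [div_le_one (by positivity)]
          linarith
        have h9 : 0 < 1 / (2 * (K : ℝ)) := by positivity
        apply pow_le_one₀
        · nlinarith
        · nlinarith
      have h10 : 0 ≤ (1 - 1 / (2 * (K : ℝ))) ^ K := by
        apply pow_nonneg
        have h8 : 1 / (2 * (K : ℝ)) ≤ 1 := by
          rw [div_le_one (by positivity)]
          linarith
        linarith
      nlinarith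
    rw [e1, mul_pow]
    have : (0 : ℝ) < 2 ^ K := by positivity
    nlinarith
  have h4 : 2 ^ K * ((K : ℝ) - 1) / 3 ≤ s ^ K * (1 - (s - 1) * K) + 2 ^ K * (K - 1) := by
    have h4 : 0 ≤ s ^ K := pow_nonneg h0 K
    have h5 : 1 - (K : ℝ) ≤ 1 - (s - 1) * K := by nlinarith
    nlinarith [mul_le_mul_of_nonneg_left h5 h4]
  have h5 := mul_le_mul_of_nonneg_left h4 (p0_nonneg K)
  refine le_trans ?_ h5
  have h6 : p0 K = Z⁻¹ * R j := p0_g j
  have h7 : p0 K * (2 ^ K * ((K : ℝ) - 1) / 3) = Z⁻¹ * ((1 / 32) ^ (j + 1) * (K - 1)) / 3 := by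
    rw [h6, ← R_mul j]
    ring
  rw [h7]
  have h8 : (1 : ℝ) / 32 ^ (j + 1) * (K / 2) ≤ (1 / 32) ^ (j + 1) * (K - 1) := by
    rw [one_div_pow]
    apply mul_le_mul_of_nonneg_left _ (by positivity)
    linarith
  have h9 : (1 / 2 : ℝ) ^ (j + 1) = (K : ℝ) * (1 / 32) ^ (j + 1) := (g_mul j).symm
  have hZ : 0 < Z⁻¹ := inv_pos.mpr Z_pos
  rw [h9]
  have h10 : (1 : ℝ) / 32 ^ (j + 1) = (1 / 32) ^ (j + 1) := by rw [one_div_pow]
  rw [h10] at h8
  have h11 := mul_le_mul_of_nonneg_left h8 hZ.le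
  linarith

/-- the sequence of the laws -/
noncomputable def P (n : ℕ) : ℕ → ℝ := step^[n] p0

lemma P_succ (n : ℕ) : P (n + 1) = step (P n) := by
  unfold P
  rw [Function.iterate_succ_apply']

lemma fin_sum (q : ℕ → ℝ) (k : ℕ) :
    (∑ x : Fin 2 → Fin (k + 2), if (∑ i, (x i : ℕ)) = k + 1 then ∏ i, q (x i) else 0) =
      ∑ ij ∈ antidiagonal (k + 1), q ij.1 * q ij.2 := by
  rw [← sum_filter]
  refine sum_nbij' (fun x => ((x 0 : ℕ), (x 1 : ℕ)))
    (fun ij => ![Fin.ofNat (k + 2) ij.1, Fin.ofNat (k + 2) ij.2]) ?_ ?_ ?_ ?_ ?_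
  · intro x hx
    simp only [mem_filter, mem_univ, true_and, Fin.sum_univ_two] at hx
    exact HasAntidiagonal.mem_antidiagonal.mpr hx
  · intro ij hij
    have h := HasAntidiagonal.mem_antidiagonal.mp hij
    simp only [mem_filter, mem_univ, true_and, Fin.sum_univ_two, Matrix.cons_val_zero,
      Matrix.cons_val_one, Fin.ofNat]
    rw [Nat.mod_eq_of_lt (by omega), Nat.mod_eq_of_lt (by omega)]
    exact h
  · intro x _
    funext i
    fin_cases i
    · ext
      simp [Fin.ofNat, Nat.mod_eq_of_lt (x 0).2]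
    · ext
      simp [Fin.ofNat, Nat.mod_eq_of_lt (x 1).2]
  · intro ij hij
    have h := HasAntidiagonal.mem_antidiagonal.mp hij
    simp only [Matrix.cons_val_zero, Matrix.cons_val_one, Fin.ofNat]
    rw [Nat.mod_eq_of_lt (by omega), Nat.mod_eq_of_lt (by omega)]
  · intro x _
    rw [Fin.prod_univ_two]

/-- the conjectured asymptotics fail for this law -/
lemma no_limit : ¬ Tendsto
    (fun n : ℕ => ((∑' k : ℕ, P n k * (1 / 2 : ℝ) ^ k) - 1) /
      (4 * ((2 : ℕ) : ℝ) / ((((2 : ℕ) : ℝ) - 1) ^ 2) * ((1 / 2 - 1) / (((2 : ℕ) : ℝ) - 1 / 2)) /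
        ((n : ℝ) ^ 2))) atTop (𝓝 1) := by
  intro h
  have h1 := h.eventually (lt_mem_nhds (show (3 / 4 : ℝ) < 1 by norm_num))
  obtain ⟨n1, hn1⟩ := eventually_atTop.mp h1
  have hcrit : ∀ n, Crit (P n) := crit_all (Q := P) P_succ (by unfold P; exact crit_p0)
  have he : ∀ n ≥ n1 + 3, 2 / (n : ℝ) ^ 2 ≤ 1 - P n 0 := by
    intro n hn
    have h2 := hn1 n (by omega)
    have hn0 : (0 : ℝ) < n := by
      have : 0 < n := by omega
      exact_mod_cast this
    refine le_trans ?_ (eta_ge (hcrit n))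
    have h3 : A (P n) (1 / 2) = ∑' k : ℕ, P n k * (1 / 2 : ℝ) ^ k := rfl
    rw [← h3] at h2
    have h4 : (4 * ((2 : ℕ) : ℝ) / ((((2 : ℕ) : ℝ) - 1) ^ 2) * ((1 / 2 - 1) / (((2 : ℕ) : ℝ) - 1 / 2)) /
        ((n : ℝ) ^ 2)) = - (8 / 3 / (n : ℝ) ^ 2) := by
      push_cast
      ring
    rw [h4, div_neg, ← neg_div, neg_sub, lt_div_iff₀ (by positivity)] at h2
    have h5 : 2 / (n : ℝ) ^ 2 = 3 / 4 * (8 / 3 / (n : ℝ) ^ 2) := by ring
    rw [h5]
    exact h2.le
  obtain ⟨C, hC⟩ := D0_le (Q := P) P_succ (by unfold P; exact crit_p0) (n0 := n1 + 3) (by omega) he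
  -- contradiction along `n = 16 ^ (j + 1)`
  have h6 : ∀ j : ℕ, (2 : ℝ) ^ (j + 1) ≤ 6 * Z * C := by
    intro j
    have h7 := hC (g j) (Nat.one_le_iff_ne_zero.mpr (by unfold g; positivity))
    have h8 := (D_p0_ge j).trans h7
    have h9 : Real.sqrt (g j : ℕ) = 4 ^ (j + 1) := by
      unfold g
      push_cast
      have : (16 : ℝ) ^ (j + 1) = (4 ^ (j + 1)) ^ 2 := by
        rw [← pow_mul, mul_comm, pow_mul]
        norm_num
      rw [this, Real.sqrt_sq (by positivity)]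
    rw [h9] at h8
    have h4p : (4 : ℝ) ^ (j + 1) = 2 ^ (j + 1) * 2 ^ (j + 1) := by
      rw [← mul_pow]
      norm_num
    rw [h4p, one_div_pow, le_div_iff₀ (by positivity)] at h8
    have hZ := Z_pos
    have h10 : Z⁻¹ * (1 / 2 ^ (j + 1)) / 6 * (2 ^ (j + 1) * 2 ^ (j + 1)) =
        Z⁻¹ / 6 * (2 : ℝ) ^ (j + 1) := by
      field_simp
    rw [h10] at h8
    have h11 := mul_le_mul_of_nonneg_left h8 (by positivity : 0 ≤ 6 * Z)
    have h12 : 6 * Z * (Z⁻¹ / 6 * (2 : ℝ) ^ (j + 1)) = 2 ^ (j + 1) := by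
      field_simp
    rw [h12] at h11
    exact h11
  obtain ⟨j, hj⟩ := pow_unbounded_of_one_lt (6 * Z * C) (one_lt_two : (1 : ℝ) < 2)
  have := h6 j
  rw [pow_succ] at this
  have h2j : (0 : ℝ) < 2 ^ j := by positivity
  linarith

end Pool.Agent.K4H58.DR
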