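import Pool.Agent.K4H59.TL.Spec

open Set

namespace Pool.Agent.K4H59.TL

/-- a linear functional which is constant on a nonempty open set vanishes -/
theorem const_open_zero58 {φ : ℂ →L[ℝ] ℝ} {O : ℂ} {c : ℝ} {U : Set ℂ} (hU : IsOpen U) {x : ℂ} (hx : x ∈ U)
    (h : ∀ y ∈ U, φ (y - O) = c) : φ = 0 := by
  ext v
  have hcont : Continuous fun t : ℝ => x + (t : ℂ) * v := by fun_prop
  have hopen : IsOpen ((fun t : ℝ => x + (t : ℂ) * v) ⁻¹' U) := hU.preimage hcont
  have h0 : (0 : ℝ) ∈ ((fun t : ℝ => x + (t : ℂ) * v) ⁻¹' U) := by simpa using hx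
  obtain ⟨ε, hε, hb⟩ := Metric.isOpen_iff.1 hopen 0 h0
  have hm : (ε / 2) ∈ Metric.ball (0 : ℝ) ε := by
    rw [Metric.mem_ball, dist_zero_right, Real.norm_of_nonneg (by positivity)]; linarith
  have h1 := h _ (hb hm)
  have h2 := h _ hx
  have h3 : x + ((ε / 2 : ℝ) : ℂ) * v - O = (x - O) + (ε / 2 : ℝ) • v := by
    rw [Complex.real_smul]; ring
  simp only at h1
  rw [h3, map_add, map_smul, h2, smul_eq_mul] at h1
  have h4 : (ε / 2) * φ v = 0 := by linarith
  rcases mul_eq_zero.1 h4 with h5 | h5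
  · linarith
  · simpa using h5

theorem pc_disj {K : Set ℂ} {O : ℂ} {H : Finset (ℂ →L[ℝ] ℝ)} {f₀ h h' : ℂ →L[ℝ] ℝ} {j j' : ℕ}
    (hR : Rep K O H) (hA : Act H f₀ h) (hA' : Act H f₀ h') (hne : ¬ (h = h' ∧ j = j')) :
    Disjoint (interior (pc H f₀ O h j)) (interior (pc H f₀ O h' j')) := by
  rw [Set.disjoint_left]
  intro x hx hx'
  have hU : IsOpen (interior (pc H f₀ O h j) ∩ interior (pc H f₀ O h' j')) :=
    isOpen_interior.inter isOpen_interior
  have hxU : x ∈ interior (pc H f₀ O h j) ∩ interior (pc H f₀ O h' j') := ⟨hx, hx'⟩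
  have hin : ∀ y ∈ interior (pc H f₀ O h j) ∩ interior (pc H f₀ O h' j'),
      y ∈ pc H f₀ O h j ∧ y ∈ pc H f₀ O h' j' :=
    fun y hy => ⟨interior_subset hy.1, interior_subset hy.2⟩
  have hhh : h = h' := by
    have : h - h' = 0 := by
      refine const_open_zero58 (φ := h - h') (O := O) (c := 0) hU hxU ?_
      intro y hy
      obtain ⟨⟨_, ha, _⟩, ⟨_, hb, _⟩⟩ := hin y hy
      have h1 := ha h' hA'.1
      have h2 := hb h hA.1
      rw [ContinuousLinearMap.sub_apply]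
      linarith
    exact sub_eq_zero.1 this
  subst hhh
  have hjj : j ≠ j' := fun h0 => hne ⟨rfl, h0⟩
  have key : ∀ a b : ℕ, a < b → (∀ y ∈ interior (pc H f₀ O h j) ∩ interior (pc H f₀ O h j'),
      y ∈ pc H f₀ O h a ∧ y ∈ pc H f₀ O h b) → False := by
    intro a b hab hin2
    have hpow : (1 / 2 : ℝ) ^ b ≤ (1 / 2 : ℝ) ^ (a + 1) :=
      pow_le_pow_of_le_one (by norm_num) (by norm_num) hab
    have hconst : ∀ y ∈ interior (pc H f₀ O h j) ∩ interior (pc H f₀ O h j'),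
        h (y - O) = (1 / 2 : ℝ) ^ (a + 1) := by
      intro y hy
      obtain ⟨⟨_, _, h1, _⟩, ⟨_, _, _, h2⟩⟩ := hin2 y hy
      linarith
    have hz := const_open_zero58 hU hxU hconst
    have h3 := hconst x hxU
    rw [hz] at h3
    have h4 : (0 : ℝ) < (1 / 2 : ℝ) ^ (a + 1) := by positivity
    simp only [ContinuousLinearMap.zero_apply] at h3
    linarith
  rcases lt_or_gt_of_ne hjj with h1 | h1
  · exact key j j' h1 hin
  · exact key j' j h1 fun y hy => ⟨(hin y hy).2, (hin y hy).1⟩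

end Pool.Agent.K4H59.TL
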