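import Mathlib
import Pool.Agent.K4H73.QF.Mono

/-!
Four exponentials, two bases: the elementary lemmas.
-/

set_option autoImplicit false

namespace Pool.Agent.K4H58.TB

open Real

theorem strict_super {y s ρ : ℝ} (hy : 1 < y) (hs : 0 < s) (hρ : 1 < ρ) :
    y ^ ρ + s < (y + s) ^ ρ := by
  have hy0 : 0 < y := by linarith
  have hys : 0 < y + s := by linarith
  have e1 : (y + s) ^ ρ = (y + s) * (y + s) ^ (ρ - 1) := by
    have := Real.rpow_add hys 1 (ρ - 1)
    rw [Real.rpow_one] at this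
    rw [← this]
    congr 1
    ring
  have e2 : y ^ ρ = y * y ^ (ρ - 1) := by
    have := Real.rpow_add hy0 1 (ρ - 1)
    rw [Real.rpow_one] at this
    rw [← this]
    congr 1
    ring
  have h1 : y ^ (ρ - 1) < (y + s) ^ (ρ - 1) :=
    Real.rpow_lt_rpow hy0.le (by linarith) (by linarith)
  have h2 : 1 < y ^ (ρ - 1) := Real.one_lt_rpow hy (by linarith)
  rw [e1, e2]
  nlinarith

theorem ratio_pos {x c ρ : ℝ} (hx : 1 < x) (hc : 0 < c) (hρ : 1 < ρ) :
    Real.log (x ^ ρ + c) < ρ * Real.log (x + c) := by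
  have h := strict_super hx hc hρ
  have h0 : 0 < x ^ ρ := Real.rpow_pos_of_pos (by linarith) _
  rw [← Real.log_rpow (by linarith)]
  exact Real.log_lt_log (by linarith) h

theorem ratio_neg {x c ρ : ℝ} (hxc : 1 < x + c) (hc : c < 0) (hρ : 1 < ρ) :
    ρ * Real.log (x + c) < Real.log (x ^ ρ + c) := by
  have h := strict_super hxc (neg_pos.2 hc) hρ
  rw [add_neg_cancel_right] at h
  have h0 : 0 < (x + c) ^ ρ := Real.rpow_pos_of_pos (by linarith) _
  rw [← Real.log_rpow (by linarith)]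
  exact Real.log_lt_log h0 (by linarith)

theorem ratio_zero {x ρ : ℝ} (hx : 1 < x) :
    Real.log (x ^ ρ + 0) = ρ * Real.log (x + 0) := by
  rw [add_zero, add_zero, Real.log_rpow (by linarith)]

theorem ratio_nonneg {x c ρ : ℝ} (hx : 1 < x) (hc : 0 ≤ c) (hρ : 1 < ρ) :
    Real.log (x ^ ρ + c) ≤ ρ * Real.log (x + c) := by
  rcases hc.eq_or_lt with rfl | hc
  · exact (ratio_zero hx).le
  · exact (ratio_pos hx hc hρ).le

theorem ratio_nonpos {x c ρ : ℝ} (hx : 1 < x) (hxc : 1 < x + c) (hc : c ≤ 0) (hρ : 1 < ρ) :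
    ρ * Real.log (x + c) ≤ Real.log (x ^ ρ + c) := by
  rcases hc.eq_or_lt with rfl | hc
  · exact (ratio_zero hx).ge
  · exact (ratio_neg hxc hc hρ).le

/-- opposite signs -/
theorem opposite {x y ρ c d : ℝ} (hx : 1 < x) (hy : 1 < y) (hρ : 1 < ρ) (hxc : 1 < x + c)
    (hyd : 1 < y + d) (hcd : c * d ≤ 0) (hne : ¬ (c = 0 ∧ d = 0)) :
    Real.log (x + c) * Real.log (y ^ ρ + d) ≠ Real.log (y + d) * Real.log (x ^ ρ + c) := by
  intro h
  have l1 : 0 < Real.log (x + c) := Real.log_pos hxc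
  have l2 : 0 < Real.log (y + d) := Real.log_pos hyd
  rcases lt_trichotomy c 0 with hc | hc | hc
  · have hd : 0 ≤ d := by
      by_contra hd
      push Not at hd
      nlinarith [mul_pos_of_neg_of_neg hc hd]
    have h1 := ratio_neg hxc hc hρ
    have h2 := ratio_nonneg hy hd hρ
    nlinarith
  · subst hc
    have h1 := ratio_zero (ρ := ρ) hx
    rw [h1] at h
    have hd : d ≠ 0 := fun hd => hne ⟨rfl, hd⟩
    rcases lt_or_gt_of_ne hd with hd | hd
    · have h2 := ratio_neg hyd hd hρ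
      nlinarith
    · have h2 := ratio_pos hy hd hρ
      nlinarith
  · have hd : d ≤ 0 := by
      by_contra hd
      push Not at hd
      nlinarith [mul_pos hc hd]
    have h1 := ratio_pos hx hc hρ
    have h2 := ratio_nonpos hy hyd hd hρ
    nlinarith

/-- the logarithm of `x + c` is close to that of `x` -/
theorem log_err {x c N : ℝ} (hN : 0 < N) (hx : N ≤ x + c) (hc : 2 * |c| ≤ N) :
    |Real.log (x + c) - Real.log x| ≤ 2 * |c| / N := by
  have hc1 := neg_abs_le c
  have hc2 := le_abs_self c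
  have hc0 := abs_nonneg c
  have hx0 : N / 2 ≤ x := by linarith
  have hxp : 0 < x := by linarith
  have hxcp : 0 < x + c := by linarith
  rw [abs_le]
  constructor
  · have h1 : Real.log x - Real.log (x + c) ≤ 2 * |c| / N := by
      rw [← Real.log_div hxp.ne' hxcp.ne']
      refine (Real.log_le_sub_one_of_pos (by positivity)).trans ?_
      have : x / (x + c) - 1 = -c / (x + c) := by field_simp; ring
      rw [this, div_le_div_iff₀ hxcp hN]
      nlinarith
    linarith
  · rw [← Real.log_div hxcp.ne' hxp.ne']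
    refine (Real.log_le_sub_one_of_pos (by positivity)).trans ?_
    have : (x + c) / x - 1 = c / x := by field_simp; ring
    rw [this, div_le_div_iff₀ hxp hN]
    nlinarith

theorem core {x y ρ c d : ℝ} (hx : 1 < x) (hy : 1 < y) (hρ : 1 < ρ) (hxc : 1 < x + c)
    (hyd : 1 < y + d) (hcd : c = d ∨ c * d ≤ 0) (hne : ¬ (c = 0 ∧ d = 0))
    (hne2 : ¬ (c = d ∧ x = y)) :
    Real.log (x + c) * Real.log (y ^ ρ + d) ≠ Real.log (y + d) * Real.log (x ^ ρ + c) := by
  rcases hcd with rfl | hcd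
  · have hc : c ≠ 0 := fun h => hne ⟨h, h⟩
    rcases lt_trichotomy x y with h | h | h
    · intro h1
      exact Pool.Agent.K4H73.QF.mono_ne hc hρ hx h hxc (by rw [mul_comm, ← h1])
    · exact absurd ⟨rfl, h⟩ hne2
    · intro h1
      exact Pool.Agent.K4H73.QF.mono_ne hc hρ hy h hyd (by rw [mul_comm, h1])
  · exact opposite hx hy hρ hxc hyd hcd hne

/-- one ordering of the rows -/
theorem core_nat {g h n0 n1 m0 m1 : ℕ} {c d : ℤ} (hg : 2 ≤ g) (hh : 2 ≤ h) (hn0 : n0 ≠ 0)
    (hm0 : m0 ≠ 0) (hn : n0 < n1) (hnm : n0 * m1 = n1 * m0)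
    (hxc : (1 : ℝ) < (g : ℝ) ^ n0 + c) (hyd : (1 : ℝ) < (h : ℝ) ^ m0 + d)
    (hcd : c = d ∨ c * d ≤ 0) (hne : ¬ (c = 0 ∧ d = 0))
    (hne2 : ¬ (c = d ∧ g ^ n0 = h ^ m0)) :
    Real.log ((g : ℝ) ^ n0 + c) * Real.log ((h : ℝ) ^ m1 + d) ≠
      Real.log ((h : ℝ) ^ m0 + d) * Real.log ((g : ℝ) ^ n1 + c) := by
  have hn0' : (n0 : ℝ) ≠ 0 := by exact_mod_cast hn0
  have hm0' : (m0 : ℝ) ≠ 0 := by exact_mod_cast hm0
  have hg1 : (1 : ℝ) < g := by exact_mod_cast (by omega : 1 < g)
  have hh1 : (1 : ℝ) < h := by exact_mod_cast (by omega : 1 < h)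
  obtain ⟨ρ, hρ⟩ : ∃ ρ : ℝ, ρ = n1 / n0 := ⟨_, rfl⟩
  have hρ1 : 1 < ρ := by
    rw [hρ, lt_div_iff₀ (by positivity), one_mul]
    exact_mod_cast hn
  have e1 : (g : ℝ) ^ n1 = ((g : ℝ) ^ n0) ^ ρ := by
    rw [← Real.rpow_natCast, ← Real.rpow_natCast, ← Real.rpow_mul (by linarith)]
    congr 1
    rw [hρ]
    field_simp
  have e2 : (h : ℝ) ^ m1 = ((h : ℝ) ^ m0) ^ ρ := by
    rw [← Real.rpow_natCast, ← Real.rpow_natCast, ← Real.rpow_mul (by linarith)]
    congr 1
    rw [hρ]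
    field_simp
    have : (n0 : ℝ) * m1 = n1 * m0 := by exact_mod_cast hnm
    linarith
  rw [e1, e2]
  refine core (one_lt_pow₀ hg1 hn0) (one_lt_pow₀ hh1 hm0) hρ1 hxc hyd ?_ ?_ ?_
  · rcases hcd with rfl | hcd
    · exact Or.inl rfl
    · right
      exact_mod_cast hcd
  · rintro ⟨h1, h2⟩
    exact hne ⟨by exact_mod_cast h1, by exact_mod_cast h2⟩
  · rintro ⟨h1, h2⟩
    exact hne2 ⟨by exact_mod_cast h1, by exact_mod_cast h2⟩

/-- linear dependence of a pair from a relation with integral coefficients -/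
theorem not_li {u v : Fin 2 → ℝ} (hli : LinearIndependent ℚ ![u, v]) {p q : ℕ} (hp : p ≠ 0)
    (h : ∀ j, (p : ℝ) * u j = q * v j) : False := by
  rw [LinearIndependent.pair_iff] at hli
  have := hli (p : ℚ) (-(q : ℚ)) (by
    funext j
    simp only [Pi.add_apply, Pi.smul_apply, Pi.zero_apply, Rat.smul_def, Rat.cast_neg,
      Rat.cast_natCast]
    rw [h j]
    ring)
  exact hp (by exact_mod_cast this.1)

theorem main (g h : ℕ) (hg : 2 ≤ g) (hh : 2 ≤ h) (n m : Fin 2 → ℕ) (c d : ℤ)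
    (hcd : c = d ∨ c * d ≤ 0) (a : Matrix (Fin 2) (Fin 2) ℕ)
    (ha0 : ∀ i, (a i 0 : ℤ) = (g : ℤ) ^ n i + c) (ha1 : ∀ i, (a i 1 : ℤ) = (h : ℤ) ^ m i + d)
    (N M : ℕ) (hN2 : 2 ≤ N) (hN : ∀ i j, N ≤ a i j) (hM : ∀ i j, a i j ≤ M)
    (hbig : 16 * ((|c| + |d| + 1 : ℤ) : ℝ) * Real.log M ≤ N)
    (hrow : LinearIndependent ℚ fun i : Fin 2 => fun j : Fin 2 => Real.log (a i j))
    (hcol : LinearIndependent ℚ fun j : Fin 2 => fun i : Fin 2 => Real.log (a i j)) :
    (Matrix.of fun i j : Fin 2 => Real.log (a i j)).det ≠ 0 := by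
  intro hdet
  rw [Matrix.det_fin_two] at hdet
  simp only [Matrix.of_apply] at hdet
  have hrow' : (fun i : Fin 2 => fun j : Fin 2 => Real.log (a i j)) =
      ![fun j => Real.log (a 0 j), fun j => Real.log (a 1 j)] := by
    funext i
    fin_cases i <;> rfl
  have hcol' : (fun j : Fin 2 => fun i : Fin 2 => Real.log (a i j)) =
      ![fun i => Real.log (a i 0), fun i => Real.log (a i 1)] := by
    funext j
    fin_cases j <;> rfl
  rw [hrow'] at hrow
  rw [hcol'] at hcol
  -- sizes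
  have hNr : (2 : ℝ) ≤ N := by exact_mod_cast hN2
  have hN0 : (0 : ℝ) < N := by linarith
  have hM2 : 2 ≤ M := hN2.trans ((hN 0 0).trans (hM 0 0))
  have hMr : (2 : ℝ) ≤ M := by exact_mod_cast hM2
  have hlog2 : (0.6931 : ℝ) < Real.log 2 := by
    have := Real.log_two_gt_d9
    linarith
  have hlM : Real.log 2 ≤ Real.log M := Real.log_le_log (by norm_num) hMr
  obtain ⟨C, hC⟩ : ∃ C : ℝ, C = |(c : ℝ)| := ⟨_, rfl⟩
  obtain ⟨D, hD⟩ : ∃ D : ℝ, D = |(d : ℝ)| := ⟨_, rfl⟩
  have hC0 : 0 ≤ C := by rw [hC]; exact abs_nonneg _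
  have hD0 : 0 ≤ D := by rw [hD]; exact abs_nonneg _
  have hbig' : 16 * (C + D + 1) * Real.log M ≤ N := by
    have : ((|c| + |d| + 1 : ℤ) : ℝ) = C + D + 1 := by
      rw [hC, hD]
      push_cast
      rfl
    rw [this] at hbig
    exact hbig
  have hNC : 11 * (C + D + 1) ≤ N := by
    have h1 : 16 * (C + D + 1) * 0.6931 ≤ 16 * (C + D + 1) * Real.log M :=
      mul_le_mul_of_nonneg_left (by linarith) (by positivity)
    nlinarith
  have hcC : -C ≤ (c : ℝ) ∧ (c : ℝ) ≤ C := by rw [hC]; exact ⟨neg_abs_le _, le_abs_self _⟩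
  have hdD : -D ≤ (d : ℝ) ∧ (d : ℝ) ≤ D := by rw [hD]; exact ⟨neg_abs_le _, le_abs_self _⟩
  have r0 : ∀ i, (a i 0 : ℝ) = (g : ℝ) ^ n i + c := fun i => by exact_mod_cast ha0 i
  have r1 : ∀ i, (a i 1 : ℝ) = (h : ℝ) ^ m i + d := fun i => by exact_mod_cast ha1 i
  have aN : ∀ i j, (N : ℝ) ≤ a i j := fun i j => by exact_mod_cast hN i j
  have aM : ∀ i j, (a i j : ℝ) ≤ M := fun i j => by exact_mod_cast hM i j
  have hn : ∀ i, n i ≠ 0 := by
    intro i hi
    have h1 := aN i 0
    rw [r0, hi, pow_zero] at h1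
    linarith
  have hm : ∀ i, m i ≠ 0 := by
    intro i hi
    have h1 := aN i 1
    rw [r1, hi, pow_zero] at h1
    linarith
  -- logarithms
  have lpos : ∀ i j, 0 < Real.log (a i j) := fun i j =>
    Real.log_pos (by have := aN i j; linarith)
  have lM : ∀ i j, Real.log (a i j) ≤ Real.log M := fun i j =>
    Real.log_le_log (by have := aN i j; linarith) (aM i j)
  have E0 : ∀ i, |Real.log (a i 0) - n i * Real.log g| ≤ 2 * C / N := by
    intro i
    rw [r0, ← Real.log_pow, hC]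
    refine log_err hN0 ?_ (by rw [← hC]; linarith)
    rw [← r0]
    exact aN i 0
  have E1 : ∀ i, |Real.log (a i 1) - m i * Real.log h| ≤ 2 * D / N := by
    intro i
    rw [r1, ← Real.log_pow, hD]
    refine log_err hN0 ?_ (by rw [← hD]; linarith)
    rw [← r1]
    exact aN i 1
  have hprod : n 0 * m 1 = n 1 * m 0 := by
    by_contra hne
    have hlg : Real.log 2 ≤ Real.log g := Real.log_le_log (by norm_num) (by exact_mod_cast hg)
    have hlh : Real.log 2 ≤ Real.log h := Real.log_le_log (by norm_num) (by exact_mod_cast hh)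
    have h1 : (1 : ℝ) ≤ |(n 0 : ℝ) * m 1 - n 1 * m 0| := by
      have h2 : ((n 0 : ℤ) * m 1 - n 1 * m 0) ≠ 0 := by
        intro h3
        exact hne (by exact_mod_cast (sub_eq_zero.1 h3))
      have h3 := Int.one_le_abs h2
      have h4 : ((1 : ℤ) : ℝ) ≤ ((|(n 0 : ℤ) * m 1 - n 1 * m 0| : ℤ) : ℝ) := by exact_mod_cast h3
      push_cast at h4
      exact h4
    have h2 : Real.log 2 * Real.log 2 ≤
        |(n 0 * Real.log g) * (m 1 * Real.log h) - (m 0 * Real.log h) * (n 1 * Real.log g)| := by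
      have h3 : (n 0 * Real.log g) * (m 1 * Real.log h) - (m 0 * Real.log h) * (n 1 * Real.log g) =
          (Real.log g * Real.log h) * ((n 0 : ℝ) * m 1 - n 1 * m 0) := by ring
      rw [h3, abs_mul, abs_of_pos (mul_pos (by linarith) (by linarith))]
      have h4 : Real.log 2 * Real.log 2 ≤ Real.log g * Real.log h :=
        mul_le_mul hlg hlh (by linarith) (by linarith)
      calc Real.log 2 * Real.log 2 ≤ Real.log g * Real.log h * 1 := by rw [mul_one]; exact h4
        _ ≤ _ := mul_le_mul_of_nonneg_left h1 (mul_nonneg (by linarith) (by linarith))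
    obtain ⟨A0, hA0⟩ : ∃ A0 : ℝ, A0 = n 0 * Real.log g := ⟨_, rfl⟩
    obtain ⟨A1, hA1⟩ : ∃ A1 : ℝ, A1 = n 1 * Real.log g := ⟨_, rfl⟩
    obtain ⟨B0, hB0⟩ : ∃ B0 : ℝ, B0 = m 0 * Real.log h := ⟨_, rfl⟩
    obtain ⟨B1, hB1⟩ : ∃ B1 : ℝ, B1 = m 1 * Real.log h := ⟨_, rfl⟩
    have e00 := E0 0
    have e10 := E0 1
    have e01 := E1 0
    have e11 := E1 1
    rw [← hA0] at e00 h2
    rw [← hA1] at e10 h2
    rw [← hB0] at e01 h2
    rw [← hB1] at e11 h2
    have hA0p : 0 ≤ A0 := by rw [hA0]; exact mul_nonneg (Nat.cast_nonneg _) (by linarith)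
    have hB0p : 0 ≤ B0 := by rw [hB0]; exact mul_nonneg (Nat.cast_nonneg _) (by linarith)
    have hCN : 2 * C / N ≤ 1 := by rw [div_le_one hN0]; linarith
    have hDN : 2 * D / N ≤ 1 := by rw [div_le_one hN0]; linarith
    have hA0M : A0 ≤ Real.log M + 1 := by
      have := (abs_le.1 e00).1
      have := lM 0 0
      linarith
    have hB0M : B0 ≤ Real.log M + 1 := by
      have := (abs_le.1 e01).1
      have := lM 0 1
      linarith
    have key : A0 * B1 - B0 * A1 = -(A0 * (Real.log (a 1 1) - B1)) -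
        (Real.log (a 0 0) - A0) * Real.log (a 1 1) + B0 * (Real.log (a 1 0) - A1) +
        (Real.log (a 0 1) - B0) * Real.log (a 1 0) := by
      linear_combination hdet
    have b1 : |A0 * (Real.log (a 1 1) - B1)| ≤ (Real.log M + 1) * (2 * D / N) := by
      rw [abs_mul, abs_of_nonneg hA0p]
      exact mul_le_mul hA0M e11 (abs_nonneg _) (by linarith)
    have b2 : |(Real.log (a 0 0) - A0) * Real.log (a 1 1)| ≤ (2 * C / N) * Real.log M := by
      rw [abs_mul, abs_of_pos (lpos 1 1)]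
      exact mul_le_mul e00 (lM 1 1) (lpos 1 1).le (by positivity)
    have b3 : |B0 * (Real.log (a 1 0) - A1)| ≤ (Real.log M + 1) * (2 * C / N) := by
      rw [abs_mul, abs_of_nonneg hB0p]
      exact mul_le_mul hB0M e10 (abs_nonneg _) (by linarith)
    have b4 : |(Real.log (a 0 1) - B0) * Real.log (a 1 0)| ≤ (2 * D / N) * Real.log M := by
      rw [abs_mul, abs_of_pos (lpos 1 0)]
      exact mul_le_mul e01 (lM 1 0) (lpos 1 0).le (by positivity)
    have hsum : |A0 * B1 - B0 * A1| ≤ (2 * Real.log M + 1) * (2 * (C + D) / N) := by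
      rw [key]
      have t1 := abs_add_le (-(A0 * (Real.log (a 1 1) - B1)) -
        (Real.log (a 0 0) - A0) * Real.log (a 1 1) + B0 * (Real.log (a 1 0) - A1))
        ((Real.log (a 0 1) - B0) * Real.log (a 1 0))
      have t2 := abs_add_le (-(A0 * (Real.log (a 1 1) - B1)) -
        (Real.log (a 0 0) - A0) * Real.log (a 1 1)) (B0 * (Real.log (a 1 0) - A1))
      have t3 := abs_sub (-(A0 * (Real.log (a 1 1) - B1)))
        ((Real.log (a 0 0) - A0) * Real.log (a 1 1))
      rw [abs_neg] at t3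
      have t4 : (2 * Real.log M + 1) * (2 * (C + D) / N) = (Real.log M + 1) * (2 * D / N) +
        (2 * C / N) * Real.log M + (Real.log M + 1) * (2 * C / N) + (2 * D / N) * Real.log M := by
        ring
      rw [t4]
      linarith
    have hfin : (2 * Real.log M + 1) * (2 * (C + D) / N) ≤ 0.44 := by
      rw [mul_div_assoc', div_le_iff₀ hN0]
      have u1 : (1 : ℝ) ≤ 1.45 * Real.log M := by nlinarith
      have u2 : (2 * Real.log M + 1) * (2 * (C + D)) ≤ (3.45 * Real.log M) * (2 * (C + D)) :=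
        mul_le_mul_of_nonneg_right (by linarith) (by positivity)
      have u3 : 0 ≤ Real.log M := by linarith
      nlinarith [mul_nonneg hC0 u3, mul_nonneg hD0 u3]
    nlinarith [abs_nonneg (A0 * B1 - B0 * A1)]
  -- equal exponents
  by_cases hn01 : n 0 = n 1
  · have hm01 : m 0 = m 1 := by
      rw [hn01] at hprod
      exact (Nat.eq_of_mul_eq_mul_left (Nat.pos_of_ne_zero (hn 1)) hprod).symm
    refine not_li hrow (p := 1) (q := 1) one_ne_zero (fun j => ?_)
    fin_cases j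
    · show (((1 : ℕ) : ℝ)) * Real.log (a 0 0) = ((1 : ℕ) : ℝ) * Real.log (a 1 0)
      rw [r0, r0, hn01]
    · show (((1 : ℕ) : ℝ)) * Real.log (a 0 1) = ((1 : ℕ) : ℝ) * Real.log (a 1 1)
      rw [r1, r1, hm01]
  by_cases hcd0 : c = 0 ∧ d = 0
  · refine not_li hrow (p := n 1) (q := n 0) (hn 1) (fun j => ?_)
    fin_cases j
    · show ((n 1 : ℕ) : ℝ) * Real.log (a 0 0) = ((n 0 : ℕ) : ℝ) * Real.log (a 1 0)
      rw [r0, r0, hcd0.1, Int.cast_zero, add_zero, add_zero, Real.log_pow, Real.log_pow]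
      ring
    · show ((n 1 : ℕ) : ℝ) * Real.log (a 0 1) = ((n 0 : ℕ) : ℝ) * Real.log (a 1 1)
      rw [r1, r1, hcd0.2, Int.cast_zero, add_zero, add_zero, Real.log_pow, Real.log_pow]
      have : (n 0 : ℝ) * m 1 = n 1 * m 0 := by exact_mod_cast hprod
      linear_combination (-Real.log h) * this
  have hone : ∀ i j, (1 : ℝ) < a i j := fun i j => by have := aN i j; linarith
  have hcc : ∀ i i', n i < n i' → n i * m i' = n i' * m i →
      Real.log (a i 0) * Real.log (a i' 1) = Real.log (a i 1) * Real.log (a i' 0) → False := by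
    intro i i' hlt hpr hd0
    have o0 := hone i 0
    have o1 := hone i 1
    rw [r0] at o0
    rw [r1] at o1
    refine core_nat hg hh (hn i) (hm i) hlt hpr o0 o1 hcd hcd0 ?_ ?_
    · rintro ⟨h1, h2⟩
      -- equal columns
      have hm' : (g : ℝ) ^ n i' = (h : ℝ) ^ m i' := by
        have h3 : (g ^ n i') ^ (n i) = (h ^ m i') ^ (n i) := by
          calc (g ^ n i') ^ (n i) = (g ^ n i) ^ (n i') := by rw [← pow_mul, ← pow_mul, mul_comm]
            _ = (h ^ m i) ^ (n i') := by rw [h2]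
            _ = (h ^ m i') ^ (n i) := by
              rw [← pow_mul, ← pow_mul]
              congr 1
              rw [mul_comm (m i) (n i'), ← hpr, mul_comm]
        have h4 := Nat.pow_left_injective (hn i) h3
        exact_mod_cast h4
      have h2' : (g : ℝ) ^ n i = (h : ℝ) ^ m i := by exact_mod_cast h2
      have hall : ∀ k, k = i ∨ k = i' := by
        have hne : i ≠ i' := by
          rintro rfl
          exact lt_irrefl _ hlt
        intro k
        omega
      refine not_li hcol (p := 1) (q := 1) one_ne_zero (fun k => ?_)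
      show (((1 : ℕ) : ℝ)) * Real.log (a k 0) = ((1 : ℕ) : ℝ) * Real.log (a k 1)
      rw [r0, r1, h1]
      rcases hall k with rfl | rfl
      · rw [h2']
      · rw [hm']
    · rw [← r0, ← r0, ← r1, ← r1]
      exact hd0
  rcases lt_or_gt_of_ne hn01 with hlt | hgt
  · exact hcc 0 1 hlt hprod (by linarith)
  · exact hcc 1 0 hgt hprod.symm (by linarith)

end Pool.Agent.K4H58.TB
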